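import Pool.Agent.R890.HSA.Colon

set_option autoImplicit false

/-!
# MP_be6357_al: persistence of the associated primes of `HS_i(I^k)`, `k ≥ i`

For every field `K`, every `n`, every polymatroidal ideal `I` of `K[x_1,...,x_n]`, every `i > 0` and
every `k ≥ i` one has `Ass HS_i(I^k) ⊆ Ass HS_i(I^(k+1))`. This is a positive answer to Q1.

Idea. For `k ≥ i` one has `HS_i(I^(k+1)) = I HS_i(I^k)` (see MP_8dad47_al), where the exponents of the
generators on both sides form base sets of submodular functions. Comparing these functions gives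
`HS_i(I^(k+1)) : I = HS_i(I^k)`, and the inclusion of associated primes follows.
-/

namespace Pool.Agent.Results.MP_be6357_al.AssPersistence

open Pool.Agent.R890.HSA

universe u

theorem result (K : Type u) [Field K] (n : ℕ) (I : Ideal (MvPolynomial (Fin n) K))
    (hI : Polymatroidal I) (i : ℕ) (hi : 0 < i) (k : ℕ) (hk : i ≤ k) :
    associatedPrimes (MvPolynomial (Fin n) K) (MvPolynomial (Fin n) K ⧸ HS i (I ^ k)) ⊆
      associatedPrimes (MvPolynomial (Fin n) K)
        (MvPolynomial (Fin n) K ⧸ HS i (I ^ (k + 1))) :=
  ass_subset hI hi hk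

end Pool.Agent.Results.MP_be6357_al.AssPersistence
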